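import Mathlib

set_option autoImplicit false

namespace Pool.Agent.Results.MP_b9e574_gt.Game

open Set Filter

universe u

variable {X : Type u}

/-- open n-covers. -/
def NCov [TopologicalSpace X] (n : ℕ) (𝒰 : Set (Set X)) : Prop :=
  (∀ U ∈ 𝒰, IsOpen U) ∧ ⋃₀ 𝒰 = univ ∧ univ ∉ 𝒰 ∧
    ∀ F : Finset X, F.card = n → ∃ U ∈ 𝒰, (F : Set X) ⊆ U

/-- strong gamma-sets. -/
def StrongGamma (X : Type u) [TopologicalSpace X] : Prop :=
  ∀ 𝒰 : ℕ → Set (Set X), (∀ n, NCov (n + 1) (𝒰 n)) →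
    ∃ U : ℕ → Set X, (∀ n, U n ∈ 𝒰 n) ∧ ∀ x, ∀ᶠ n in atTop, x ∈ U n

/-- the first moves of the second player, latest first. -/
def hist (U : ℕ → Set X) : ℕ → List (Set X)
  | 0 => []
  | n + 1 => U n :: hist U n

/-- histories that follow the rules against a strategy. -/
def Legal (σ : List (Set X) → Set (Set X)) : List (Set X) → Prop
  | [] => True
  | a :: l => a ∈ σ l ∧ Legal σ l

/-- the first player has a winning strategy. -/
def OneWins (X : Type u) [TopologicalSpace X] : Prop :=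
  ∃ σ : List (Set X) → Set (Set X), (∀ l, Legal σ l → NCov (l.length + 1) (σ l)) ∧
    ∀ U : ℕ → Set X, (∀ n, U n ∈ σ (hist U n)) → ¬ ∀ x, ∀ᶠ n in atTop, x ∈ U n

theorem hist_len (U : ℕ → Set X) (n : ℕ) : (hist U n).length = n := by
  induction n with
  | zero => rfl
  | succ n ih => simp [hist, ih]

variable [TopologicalSpace X]

/-- families covering all small sets. -/
def Cov (n : ℕ) (𝒞 : Set (Set X)) : Prop :=
  (∀ U ∈ 𝒞, IsOpen U) ∧ ∀ F : Finset X, F.card ≤ n → ∃ U ∈ 𝒞, (F : Set X) ⊆ U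

/-- selection with the whole space allowed. -/
def Sel (X : Type u) [TopologicalSpace X] : Prop :=
  ∀ 𝒞 : ℕ → Set (Set X), (∀ n, Cov (n + 1) (𝒞 n)) →
    ∃ U : ℕ → Set X, (∀ n, U n ∈ 𝒞 n) ∧ ∀ x, ∀ᶠ n in atTop, x ∈ U n

theorem sel_of (h : StrongGamma X) (hf : ∀ n, ∃ 𝒰 : Set (Set X), NCov (n + 1) 𝒰) : Sel X := by
  classical
  intro 𝒞 h𝒞
  choose 𝒰 h𝒰 using hf
  obtain ⟨U, h1, h2⟩ := h (fun n => if univ ∈ 𝒞 n then 𝒰 n else 𝒞 n) fun n => by
    by_cases hn : univ ∈ 𝒞 n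
    · rw [if_pos hn]; exact h𝒰 n
    · rw [if_neg hn]
      refine ⟨(h𝒞 n).1, eq_univ_of_forall fun x => ?_, hn, fun F hF => (h𝒞 n).2 F hF.le⟩
      obtain ⟨V, hV, hV'⟩ := (h𝒞 n).2 {x} (by simp)
      exact ⟨V, hV, hV' (by simp)⟩
  refine ⟨fun n => if univ ∈ 𝒞 n then univ else U n, fun n => ?_, fun x => (h2 x).mono fun n hn => ?_⟩
  · by_cases hn : univ ∈ 𝒞 n
    · simp only [if_pos hn]; exact hn
    · have := h1 n
      simp only [if_neg hn] at this ⊢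
      exact this
  · by_cases hn' : univ ∈ 𝒞 n
    · simp only [if_pos hn']; trivial
    · simp only [if_neg hn']; exact hn

theorem small {n : ℕ} {𝒞 : Set (Set X)} (h : Cov n 𝒞) (E : Finset X) :
    ∃ V, IsOpen V ∧ (E : Set X) ⊆ V ∧ ∃ ℱ ⊆ 𝒞, ℱ.Finite ∧
      ∀ F : Finset X, F.card ≤ n → (F : Set X) ⊆ V → ∃ U ∈ ℱ, (F : Set X) ⊆ U := by
  classical
  obtain ⟨U0, h0, _⟩ := h.2 ∅ (by simp)
  have h1 : ∀ G : Finset X, ∃ U ∈ 𝒞, G.card ≤ n → (G : Set X) ⊆ U := fun G => by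
    by_cases hG : G.card ≤ n
    · obtain ⟨U, hU, hU'⟩ := h.2 G hG
      exact ⟨U, hU, fun _ => hU'⟩
    · exact ⟨U0, h0, fun h => absurd h hG⟩
  choose w hw1 hw2 using h1
  have hfin : {G : Finset X | G ⊆ E}.Finite :=
    (Finset.finite_toSet E.powerset).subset fun G hG => Finset.mem_coe.mpr (Finset.mem_powerset.mpr hG)
  obtain ⟨Y, hY⟩ : ∃ Y : X → Set X, ∀ e, Y e =
      ⋂ G ∈ {G : Finset X | G ⊆ E ∧ G.card ≤ n ∧ e ∈ G}, w G := ⟨_, fun _ => rfl⟩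
  have hYo : ∀ e, IsOpen (Y e) := fun e => by
    rw [hY]
    exact (hfin.subset fun G hG => hG.1).isOpen_biInter fun G _ => h.1 _ (hw1 G)
  have hYm : ∀ e x, x ∈ Y e ↔ ∀ G : Finset X, G ⊆ E → G.card ≤ n → e ∈ G → x ∈ w G := fun e x => by
    rw [hY, mem_iInter₂]
    exact ⟨fun h G h1 h2 h3 => h G ⟨h1, h2, h3⟩, fun h G hG => h G hG.1 hG.2.1 hG.2.2⟩
  refine ⟨⋃ e ∈ (E : Set X), Y e, isOpen_biUnion fun e _ => hYo e,
    fun e he => mem_iUnion₂.mpr ⟨e, he, (hYm e e).mpr fun G _ h2 h3 => hw2 G h2 h3⟩,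
    w '' {G : Finset X | G ⊆ E}, ?_, hfin.image _, fun F hF hF' => ?_⟩
  · rintro _ ⟨G, _, rfl⟩
    exact hw1 G
  · have h2 : ∀ x, ∃ e, x ∈ F → e ∈ E ∧ x ∈ Y e := fun x => by
      by_cases hx : x ∈ F
      · obtain ⟨e, he, he'⟩ := mem_iUnion₂.mp (hF' hx)
        exact ⟨e, fun _ => ⟨he, he'⟩⟩
      · exact ⟨x, fun h => absurd h hx⟩
    choose e he using h2
    have h3 : F.image e ⊆ E := fun y hy => by
      obtain ⟨x, hx, rfl⟩ := Finset.mem_image.mp hy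
      exact (he x hx).1
    exact ⟨_, ⟨_, h3, rfl⟩, fun x hx => (hYm _ _).mp (he x hx).2 _ h3
      (Finset.card_image_le.trans hF) (Finset.mem_image_of_mem _ hx)⟩

omit [TopologicalSpace X] in
theorem ev_sub {V : ℕ → Set X} (h : ∀ x, ∀ᶠ n in atTop, x ∈ V n) (F : Finset X) :
    ∃ N, ∀ j, N ≤ j → (F : Set X) ⊆ V j :=
  eventually_atTop.mp ((Finset.eventually_all F).mpr fun x _ => h x)

theorem cnt (h : Sel X) {n : ℕ} {𝒞 : Set (Set X)} (h𝒞 : Cov n 𝒞) :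
    ∃ w : ℕ → Set X, (∀ k, w k ∈ 𝒞) ∧ Cov n (range w) := by
  obtain ⟨V, h1, h2⟩ := h (fun _ => {V | IsOpen V ∧ ∃ ℱ ⊆ 𝒞, ℱ.Finite ∧
      ∀ F : Finset X, F.card ≤ n → (F : Set X) ⊆ V → ∃ U ∈ ℱ, (F : Set X) ⊆ U}) fun _ =>
    ⟨fun V hV => hV.1, fun E _ => by
      obtain ⟨V, h1, h2, h3⟩ := small h𝒞 E
      exact ⟨V, ⟨h1, h3⟩, h2⟩⟩
  choose ℱ h3 h4 h5 using fun j => (h1 j).2
  have h6 : ∀ F : Finset X, F.card ≤ n → ∃ U ∈ ⋃ j, ℱ j, (F : Set X) ⊆ U := fun F hF => by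
    obtain ⟨N, hN⟩ := ev_sub h2 F
    obtain ⟨U, hU, hU'⟩ := h5 N F hF (hN N le_rfl)
    exact ⟨U, mem_iUnion.mpr ⟨N, hU⟩, hU'⟩
  obtain ⟨U0, h0, _⟩ := h6 ∅ (by simp)
  obtain ⟨w, hw⟩ := (countable_iUnion fun j => (h4 j).countable).exists_eq_range ⟨U0, h0⟩
  have h7 : range w ⊆ 𝒞 := hw ▸ iUnion_subset h3
  exact ⟨w, fun k => h7 ⟨k, rfl⟩, fun U hU => h𝒞.1 U (h7 hU), hw ▸ h6⟩

theorem bounds (h : Sel X) (w : List ℕ → ℕ → Set X)
    (hw : ∀ t, Cov (t.length + 1) (range (w t))) :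
    ∃ ψ : List ℕ → ℕ → ℕ, ∀ F : Finset X, ∃ j, ∀ t : List ℕ, F.card ≤ t.length + 1 →
      ∃ k ≤ ψ t j, (F : Set X) ⊆ w t k := by
  classical
  obtain ⟨V, h1, h2⟩ := h (fun j => {V | IsOpen V ∧ ∀ t : List ℕ, ∃ r, Encodable.encode t ≤ j →
      ∀ F : Finset X, F.card ≤ t.length + 1 → (F : Set X) ⊆ V → ∃ k ≤ r, (F : Set X) ⊆ w t k})
    fun j => ⟨fun V hV => hV.1, fun E _ => by
      choose V h1 h2 ℱ h3 h4 h5 using fun t => small (hw t) E
      have h6 : {t : List ℕ | Encodable.encode t ≤ j}.Finite :=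
        (finite_Iic j).preimage Encodable.encode_injective.injOn
      refine ⟨⋂ t ∈ {t : List ℕ | Encodable.encode t ≤ j}, V t, ⟨h6.isOpen_biInter fun t _ => h1 t,
        fun t => ?_⟩, subset_iInter₂ fun t _ => h2 t⟩
      have h7 : ∀ U, ∃ k, U ∈ ℱ t → w t k = U := fun U => by
        by_cases hU : U ∈ ℱ t
        · obtain ⟨k, hk⟩ := h3 t hU
          exact ⟨k, fun _ => hk⟩
        · exact ⟨0, fun h => absurd h hU⟩
      choose κ hκ using h7
      refine ⟨(h4 t).toFinset.sup κ, fun ht F hF hF' => ?_⟩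
      obtain ⟨U, hU, hU'⟩ := h5 t F hF (hF'.trans (biInter_subset_of_mem ht))
      exact ⟨κ U, Finset.le_sup (f := κ) (by simpa using hU), (hκ U hU).symm ▸ hU'⟩⟩
  choose r hr using fun j => (h1 j).2
  refine ⟨fun t j => r (j + Encodable.encode t) t, fun F => ?_⟩
  obtain ⟨N, hN⟩ := ev_sub h2 F
  exact ⟨N, fun t hF => hr _ t (by omega) F hF (hN _ (by omega))⟩

/-- following a policy. -/
def nd (κ : List ℕ → ℕ) (s : List ℕ) : ℕ → List ℕ
  | 0 => s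
  | l + 1 => κ (nd κ s l) :: nd κ s l

/-- bounded descendants. -/
def desc (ψ : List ℕ → ℕ) (t : List ℕ) : ℕ → Set (List ℕ)
  | 0 => {t}
  | l + 1 => ⋃ s ∈ desc ψ t l, (fun k => k :: s) '' Iic (ψ s)

theorem desc_fin (ψ : List ℕ → ℕ) (t : List ℕ) (l : ℕ) : (desc ψ t l).Finite := by
  induction l with
  | zero => exact finite_singleton t
  | succ l ih => exact ih.biUnion fun s _ => (finite_Iic _).image _

theorem nd_len (κ : List ℕ → ℕ) (s : List ℕ) (l : ℕ) : (nd κ s l).length = s.length + l := by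
  induction l with
  | zero => rfl
  | succ l ih => simp only [nd, List.length_cons, ih]; omega

theorem tree (h : Sel X) (w : List ℕ → ℕ → Set X) (hw : ∀ t, Cov (t.length + 1) (range (w t))) :
    ∃ (t : ℕ → List ℕ) (b : ℕ → ℕ), t 0 = [] ∧ (∀ n, t (n + 1) = b n :: t n) ∧
      ∀ x, ∀ᶠ n in atTop, x ∈ w (t n) (b n) := by
  classical
  obtain ⟨ψ, hψ⟩ := bounds h w hw
  obtain ⟨B, hB⟩ : ∃ B : ℕ → Set (List ℕ), ∀ n s, s ∈ B n ↔ s.length = n ∧ ∃ j ≤ n, ∃ t : List ℕ,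
      Encodable.encode t ≤ n ∧ ∃ l ≤ n, s ∈ desc (fun t => ψ t j) t l := ⟨_, fun _ _ => Iff.rfl⟩
  have hBf : ∀ n, (B n).Finite := fun n => by
    refine ((finite_Iic n).biUnion fun j _ => ((finite_Iic n).preimage
      (Encodable.encode_injective (α := List ℕ)).injOn).biUnion fun t _ => (finite_Iic n).biUnion
        fun l _ => desc_fin (fun t => ψ t j) t l).subset fun s hs => ?_
    obtain ⟨_, j, hj, t, ht, l, hl, h⟩ := (hB n s).mp hs
    exact mem_iUnion₂.mpr ⟨j, hj, mem_iUnion₂.mpr ⟨t, ht, mem_iUnion₂.mpr ⟨l, hl, h⟩⟩⟩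
  obtain ⟨W, h1, h2⟩ := h (fun n => {W | IsOpen W ∧ ∃ (L : ℕ) (κ : List ℕ → ℕ), 0 < L ∧ ∀ s ∈ B n,
      nd κ s L ∈ B (n + L) ∧ ∀ l < L, W ⊆ w (nd κ s l) (κ (nd κ s l))}) fun n =>
    ⟨fun V hV => hV.1, fun F hF => by
      obtain ⟨j, hj⟩ := hψ F
      have h3 : ∀ t : List ℕ, ∃ k, n ≤ t.length → k ≤ ψ t j ∧ (F : Set X) ⊆ w t k := fun t => by
        by_cases ht : n ≤ t.length
        · obtain ⟨k, hk, hk'⟩ := hj t (by omega)
          exact ⟨k, fun _ => ⟨hk, hk'⟩⟩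
        · exact ⟨0, fun h => absurd h ht⟩
      choose κ hκ using h3
      have h4 : ∀ s ∈ B n, ∀ l, n ≤ (nd κ s l).length := fun s hs l => by
        rw [nd_len, ((hB n s).mp hs).1]; omega
      obtain ⟨L, hL⟩ : ∃ L, L = (hBf n).toFinset.sup Encodable.encode + j + 1 := ⟨_, rfl⟩
      refine ⟨⋂ s ∈ B n, ⋂ l ∈ Iio L, w (nd κ s l) (κ (nd κ s l)), ⟨(hBf n).isOpen_biInter fun s _ =>
        (finite_Iio L).isOpen_biInter fun l _ => (hw _).1 _ ⟨_, rfl⟩, L, κ, by omega,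
        fun s hs => ⟨(hB _ _).mpr ⟨by rw [nd_len, ((hB n s).mp hs).1], j, by omega, s, ?_, L,
          by omega, ?_⟩, fun l hl => (biInter_subset_of_mem hs).trans (biInter_subset_of_mem hl)⟩⟩,
        subset_iInter₂ fun s hs => subset_iInter₂ fun l _ => (hκ _ (h4 s hs l)).2⟩
      · have : Encodable.encode s ≤ (hBf n).toFinset.sup Encodable.encode :=
          Finset.le_sup (by simpa using hs)
        omega
      · clear hL
        induction L with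
        | zero => exact rfl
        | succ l ih => exact mem_iUnion₂.mpr ⟨_, ih, _, (hκ _ (h4 s hs l)).1, rfl⟩⟩
  choose L κ h3 h4 using fun n => (h1 n).2
  obtain ⟨st, s0, s1⟩ : ∃ st : ℕ → List ℕ × ℕ × ℕ, st 0 = ([], 0, 0) ∧ ∀ n, st (n + 1) =
      (κ (st n).2.1 (st n).1 :: (st n).1, if (st n).2.2 + 1 = L (st n).2.1 then
        ((st n).2.1 + L (st n).2.1, 0) else ((st n).2.1, (st n).2.2 + 1)) :=
    ⟨fun n => Nat.rec ([], 0, 0) (fun _ p => (κ p.2.1 p.1 :: p.1, if p.2.2 + 1 = L p.2.1 then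
      (p.2.1 + L p.2.1, 0) else (p.2.1, p.2.2 + 1))) n, rfl, fun _ => rfl⟩
  have inv : ∀ n, ∃ s ∈ B (st n).2.1, (st n).1 = nd (κ (st n).2.1) s (st n).2.2 ∧
      (st n).2.2 < L (st n).2.1 ∧ n = (st n).2.1 + (st n).2.2 := by
    intro n
    induction n with
    | zero =>
      rw [s0]
      exact ⟨[], (hB _ _).mpr ⟨rfl, 0, le_rfl, [], le_rfl, 0, le_rfl, rfl⟩, rfl, h3 0, rfl⟩
    | succ n ih =>
      obtain ⟨s, hs, i1, i2, i3⟩ := ih
      rw [s1]
      by_cases hc : (st n).2.2 + 1 = L (st n).2.1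
      · simp only [if_pos hc]
        refine ⟨_, (h4 _ s hs).1, ?_, h3 _, by omega⟩
        rw [i1, ← hc]
        rfl
      · simp only [if_neg hc]
        refine ⟨s, hs, ?_, by omega, by omega⟩
        rw [i1]
        rfl
  refine ⟨fun n => (st n).1, fun n => κ (st n).2.1 (st n).1, by simp only [s0],
    fun n => by simp only [s1], fun x => ?_⟩
  obtain ⟨N, hN⟩ := eventually_atTop.mp (h2 x)
  refine eventually_atTop.mpr ⟨N + (Finset.range N).sup L, fun n hn => ?_⟩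
  obtain ⟨s, hs, i1, i2, i3⟩ := inv n
  simp only [i1]
  refine (h4 _ s hs).2 _ i2 (hN _ ?_)
  by_contra hlt
  have : L (st n).2.1 ≤ (Finset.range N).sup L := Finset.le_sup (Finset.mem_range.mpr (by omega))
  omega

theorem result (X : Type u) [TopologicalSpace X] : StrongGamma X ↔ ¬ OneWins X := by
  classical
  refine ⟨fun h ⟨σ, hσ, hw⟩ => ?_, fun h 𝒰 h𝒰 => ?_⟩
  · rcases isEmpty_or_nonempty X with hX | ⟨⟨x0⟩⟩
    · obtain ⟨U, hU, _⟩ := h (fun _ => ∅) fun n => ⟨by simp, Subsingleton.elim _ _, by simp,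
        fun F hF => by simp [Finset.eq_empty_of_isEmpty F] at hF⟩
      exact hU 0
    have hf : ∀ n, ∃ l, Legal σ l ∧ l.length = n := by
      intro n
      induction n with
      | zero => exact ⟨[], trivial, rfl⟩
      | succ n ih =>
        obtain ⟨l, h1, h2⟩ := ih
        have h3 : x0 ∈ ⋃₀ σ l := by rw [(hσ l h1).2.1]; trivial
        obtain ⟨a, ha, _⟩ := h3
        exact ⟨a :: l, ⟨ha, h1⟩, by simp [h2]⟩
    have hf' : ∀ n, ∃ 𝒰 : Set (Set X), NCov (n + 1) 𝒰 := fun n => by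
      obtain ⟨l, h1, rfl⟩ := hf n
      exact ⟨_, hσ l h1⟩
    have hinf : Infinite X := by
      by_contra hn
      rw [not_infinite_iff_finite] at hn
      have := Fintype.ofFinite X
      obtain ⟨𝒰, h1⟩ := hf' (Fintype.card X - 1)
      have h2 : 0 < Fintype.card X := Fintype.card_pos_iff.mpr ⟨x0⟩
      obtain ⟨U, hU, hU'⟩ := h1.2.2.2 Finset.univ (by rw [Finset.card_univ]; omega)
      exact h1.2.2.1 (eq_univ_of_univ_subset (by simpa using hU') ▸ hU)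
    have hs := sel_of h hf'
    have h1 : ∀ l : List (Set X), ∃ w : ℕ → Set X, Legal σ l →
        (∀ k, w k ∈ σ l) ∧ Cov (l.length + 1) (range w) := fun l => by
      by_cases hl : Legal σ l
      · obtain ⟨w, h1⟩ := cnt hs (n := l.length + 1) (𝒞 := σ l) ⟨(hσ l hl).1, fun F hF => by
          obtain ⟨G, hG, hG'⟩ := Infinite.exists_superset_card_eq F _ hF
          obtain ⟨U, hU, hU'⟩ := (hσ l hl).2.2.2 G hG'
          exact ⟨U, hU, (Finset.coe_subset.mpr hG).trans hU'⟩⟩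
        exact ⟨w, fun _ => h1⟩
      · exact ⟨fun _ => ∅, fun h => absurd h hl⟩
    choose c hc using h1
    obtain ⟨H, H0, H1⟩ : ∃ H : List ℕ → List (Set X), H [] = [] ∧
        ∀ k t, H (k :: t) = c (H t) k :: H t :=
      ⟨fun t => List.rec [] (fun k _ l => c l k :: l) t, rfl, fun _ _ => rfl⟩
    have h2 : ∀ t, Legal σ (H t) ∧ (H t).length = t.length := by
      intro t
      induction t with
      | nil => rw [H0]; exact ⟨trivial, rfl⟩
      | cons k t ih => rw [H1]; exact ⟨⟨(hc _ ih.1).1 k, ih.1⟩, by simp [ih.2]⟩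
    obtain ⟨t, b, t0, t1, h3⟩ := tree hs (fun t => c (H t)) fun t => (h2 t).2 ▸ (hc _ (h2 t).1).2
    have h4 : ∀ n, hist (fun n => c (H (t n)) (b n)) n = H (t n) := by
      intro n
      induction n with
      | zero => rw [t0, H0]; rfl
      | succ n ih => rw [t1, H1, hist, ih]
    exact hw (fun n => c (H (t n)) (b n)) (fun n => by rw [h4]; exact (hc _ (h2 _).1).1 _) h3
  · by_contra hn
    refine h ⟨fun l => 𝒰 l.length, fun l _ => h𝒰 _, fun U hU hU' => hn ⟨U, fun n => ?_, hU'⟩⟩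
    have := hU n
    simp only [hist_len] at this
    exact this

end Pool.Agent.Results.MP_b9e574_gt.Game
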